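import Pool.Agent.H99.NR.Stm

set_option autoImplicit false

namespace Pool.Agent.H78.NR

open Finset Pool.Agent.H99.NR

/-- `‖B z‖²` -/
noncomputable def nB {n : ℕ} (B : Fin n → Fin n → ℝ) (z : Fin n → ℝ) : ℝ :=
  ∑ i, (∑ j, B i j * z j) ^ 2

lemma nB_smul {n : ℕ} (B : Fin n → Fin n → ℝ) (c : ℝ) (z : Fin n → ℝ) :
    nB B (fun j => c * z j) = c ^ 2 * nB B z := by
  unfold nB
  rw [Finset.mul_sum]
  refine Finset.sum_congr rfl (fun i _ => ?_)
  rw [← mul_pow, Finset.mul_sum]
  congr 1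
  refine Finset.sum_congr rfl (fun j _ => ?_)
  ring

/-- the sequences of the greedy construction -/
def Seq {n : ℕ} (B : Fin n → Fin n → ℝ) (R : Finset (Fin n)) (t : ℝ) (r : ℕ)
    (X : ℕ → Fin n → ℝ) : Prop :=
  ∀ q < r, (∑ j, X q j ^ 2 = 1) ∧ t < nB B (X q) ∧
    ∀ j, X q j ≠ 0 → j ∈ R ∧ ∑ p ∈ range q, X p j ^ 2 < 1

lemma seq_le_two {n : ℕ} (B : Fin n → Fin n → ℝ) (R : Finset (Fin n)) (t : ℝ) (r : ℕ)
    (X : ℕ → Fin n → ℝ) (h : Seq B R t r X) (j : Fin n) (q : ℕ) (hq : q ≤ r) :
    ∑ p ∈ range q, X p j ^ 2 ≤ 2 := by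
  induction q with
  | zero => simp
  | succ q ih =>
    rw [Finset.sum_range_succ]
    obtain ⟨h1, _, h3⟩ := h q (by omega)
    by_cases hz : X q j = 0
    · rw [hz]
      simpa using ih (by omega)
    · have h4 := (h3 j hz).2
      have h5 : X q j ^ 2 ≤ 1 := by
        rw [← h1]
        exact Finset.single_le_sum (f := fun j => X q j ^ 2) (fun i _ => sq_nonneg _)
          (Finset.mem_univ j)
      linarith

lemma seq_bound (hR : S_RND) {n : ℕ} (B : Fin n → Fin n → ℝ) (R : Finset (Fin n)) (M : ℝ)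
    (hM : 0 ≤ M) (hR0 : 0 < R.card) (hx : ∀ x : Fin n → SignType, (∀ j, x j ≠ 0 ↔ j ∈ R) →
    ∑ i, (∑ j, B i j * (x j : ℝ)) ^ 2 ≤ M) (r : ℕ) (X : ℕ → Fin n → ℝ)
    (h : Seq B R (32 * M / R.card) r X) : 4 * r ≤ R.card := by
  rcases Nat.eq_zero_or_pos r with h0 | hr
  · subst h0; omega
  have hs2 : (√2 : ℝ) ^ 2 = 2 := Real.sq_sqrt (by norm_num)
  have h1 := hR n B R M hM hx r (fun q j => (√2)⁻¹ * X q j) (by
    intro q j hj
    by_contra hne
    have : X q j ≠ 0 := fun h => hne (by simp only [h, mul_zero])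
    exact hj ((h q q.2).2.2 j this).1) (by
    intro j
    have h2 := seq_le_two B R _ r X h j r le_rfl
    rw [Finset.sum_range] at h2
    have h3 : ∑ q : Fin r, ((√2)⁻¹ * X q j) ^ 2 = 2⁻¹ * ∑ q : Fin r, X q j ^ 2 := by
      rw [Finset.mul_sum]
      refine Finset.sum_congr rfl (fun q _ => ?_)
      rw [mul_pow, inv_pow, hs2]
    rw [h3]
    linarith)
  have h4 : ∑ q : Fin r, ∑ i, (∑ j, B i j * ((√2)⁻¹ * X q j)) ^ 2 = 2⁻¹ * ∑ q : Fin r, nB B (X q) := by
    rw [Finset.mul_sum]
    refine Finset.sum_congr rfl (fun q _ => ?_)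
    have := nB_smul B (√2)⁻¹ (X q)
    unfold nB at this ⊢
    rw [this, inv_pow, hs2]
  rw [h4] at h1
  have h5 : ∑ q : Fin r, (32 * M / R.card) < ∑ q : Fin r, nB B (X q) := by
    apply Finset.sum_lt_sum_of_nonempty
    · exact ⟨⟨0, hr⟩, Finset.mem_univ _⟩
    · intro q _
      exact (h q q.2).2.1
  rw [Finset.sum_const, Finset.card_univ, Fintype.card_fin, nsmul_eq_mul] at h5
  have hRr : (0 : ℝ) < R.card := by exact_mod_cast hR0
  have h6 : (r : ℝ) * (32 * M / R.card) < 8 * M := by linarith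
  have h7 : (r : ℝ) * (32 * M) < 8 * M * R.card := by
    have := mul_lt_mul_of_pos_right h6 hRr
    have e : (r : ℝ) * (32 * M / R.card) * R.card = r * (32 * M) := by field_simp
    rwa [e] at this
  have h8 : (4 : ℝ) * r < R.card := by
    by_contra hc
    push Not at hc
    nlinarith [mul_le_mul_of_nonneg_left hc hM]
  have : ((4 * r : ℕ) : ℝ) < R.card := by push_cast; exact h8
  exact le_of_lt (by exact_mod_cast this)

theorem SEL (hR : S_RND) : S_SEL := by
  classical
  refine ⟨32, by norm_num, ?_⟩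
  intro n B R M hM hx
  rcases Nat.eq_zero_or_pos R.card with h0 | hR0
  · refine ⟨∅, by simp, by simp, ?_⟩
    intro z hz
    have hR' : R = ∅ := Finset.card_eq_zero.1 h0
    have hz' : ∀ j, z j = 0 := fun j => hz j (by simp [hR'])
    simp [hz']
  set t : ℝ := 32 * M / R.card with ht
  have hex : ∃ r, (∃ X, Seq B R t r X) ∧ ∀ r', (∃ X, Seq B R t r' X) → r' ≤ r := by
    have hne : ∃ r, ∃ X, Seq B R t r X := ⟨0, fun _ _ => 0, fun q hq => absurd hq (by omega)⟩
    have hb : ∀ r, (∃ X, Seq B R t r X) → r ≤ R.card := by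
      rintro r ⟨X, hX⟩
      have := seq_bound hR B R M hM hR0 hx r X hX
      omega
    refine ⟨Nat.findGreatest (fun r => ∃ X, Seq B R t r X) R.card, ?_, ?_⟩
    · obtain ⟨r, hr⟩ := hne
      exact Nat.findGreatest_spec (P := fun r => ∃ X, Seq B R t r X) (hb r hr) hr
    · intro r' hr'
      exact Nat.le_findGreatest (hb r' hr') hr'
  obtain ⟨r, ⟨X, hX⟩, hmax⟩ := hex
  refine ⟨R.filter (fun j => 1 ≤ ∑ p ∈ range r, X p j ^ 2), Finset.filter_subset _ _, ?_, ?_⟩
  · have h1 := seq_bound hR B R M hM hR0 hx r X hX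
    have h2 : ((R.filter (fun j => 1 ≤ ∑ p ∈ range r, X p j ^ 2)).card : ℝ) ≤ r := by
      calc ((R.filter (fun j => 1 ≤ ∑ p ∈ range r, X p j ^ 2)).card : ℝ)
          = ∑ j ∈ R.filter (fun j => 1 ≤ ∑ p ∈ range r, X p j ^ 2), (1 : ℝ) := by simp
        _ ≤ ∑ j ∈ R.filter (fun j => 1 ≤ ∑ p ∈ range r, X p j ^ 2), ∑ p ∈ range r, X p j ^ 2 :=
            Finset.sum_le_sum (fun j hj => (Finset.mem_filter.1 hj).2)
        _ ≤ ∑ j, ∑ p ∈ range r, X p j ^ 2 :=
            Finset.sum_le_sum_of_subset_of_nonneg (Finset.subset_univ _)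
              (fun j _ _ => Finset.sum_nonneg (fun p _ => sq_nonneg _))
        _ = ∑ p ∈ range r, ∑ j, X p j ^ 2 := Finset.sum_comm
        _ = ∑ p ∈ range r, (1 : ℝ) :=
            Finset.sum_congr rfl (fun p hp => (hX p (Finset.mem_range.1 hp)).1)
        _ = r := by simp
    have h3 : (R.filter (fun j => 1 ≤ ∑ p ∈ range r, X p j ^ 2)).card ≤ r := by exact_mod_cast h2
    omega
  · intro z hz
    by_contra hc
    push Not at hc
    have hzz : 0 ≤ ∑ j, z j ^ 2 := Finset.sum_nonneg (fun j _ => sq_nonneg _)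
    have hc' : t * ∑ j, z j ^ 2 < nB B z := by
      unfold nB
      rw [ht]
      have e : 32 * (M / (R.card : ℝ)) = 32 * M / R.card := by ring
      rw [e] at hc
      exact hc
    have hpos : 0 < ∑ j, z j ^ 2 := by
      rcases hzz.lt_or_eq with h | h
      · exact h
      · exfalso
        have hz0 : ∀ j, z j = 0 := by
          intro j
          have := (Finset.sum_eq_zero_iff_of_nonneg (fun j _ => sq_nonneg (z j))).1 h.symm j
            (Finset.mem_univ j)
          exact pow_eq_zero_iff (by norm_num) |>.1 this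
        have : nB B z = 0 := by
          unfold nB
          simp [hz0]
        rw [this, ← h] at hc'
        simp at hc'
    set s : ℝ := (√(∑ j, z j ^ 2))⁻¹ with hs
    have hs2 : s ^ 2 = (∑ j, z j ^ 2)⁻¹ := by
      rw [hs, inv_pow, Real.sq_sqrt hzz]
    have hP : Seq B R t (r + 1) (fun q => if q = r then (fun j => s * z j) else X q) := by
      intro q hq
      have hsum : ∀ j, ∀ q ≤ r, ∑ p ∈ range q,
          ((fun q => if q = r then (fun j => s * z j) else X q : ℕ → Fin n → ℝ) p j) ^ 2 =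
          ∑ p ∈ range q, X p j ^ 2 := by
        intro j q hq
        refine Finset.sum_congr rfl (fun p hp => ?_)
        have : p ≠ r := by
          have := Finset.mem_range.1 hp
          omega
        simp [this]
      rcases Nat.lt_succ_iff_lt_or_eq.1 hq with hq' | rfl
      · obtain ⟨h1, h2, h3⟩ := hX q hq'
        have hqr : q ≠ r := by omega
        refine ⟨by simpa [hqr] using h1, by simpa [hqr] using h2, ?_⟩
        intro j hj
        rw [hsum j q hq'.le]
        exact h3 j (by simpa [hqr] using hj)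
      · refine ⟨?_, ?_, ?_⟩
        · simp only [if_true]
          have : ∑ j, (s * z j) ^ 2 = s ^ 2 * ∑ j, z j ^ 2 := by
            rw [Finset.mul_sum]
            exact Finset.sum_congr rfl (fun j _ => by ring)
          rw [this, hs2]
          exact inv_mul_cancel₀ hpos.ne'
        · simp only [if_true]
          rw [nB_smul, hs2, inv_mul_eq_div, lt_div_iff₀ hpos]
          exact hc'
        · intro j hj
          rw [hsum j q le_rfl]
          simp only [if_true] at hj
          have hzj : z j ≠ 0 := fun h => hj (by simp [h])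
          by_contra hcon
          refine hzj (hz j ?_)
          intro hmem
          obtain ⟨hjR, hjJ⟩ := Finset.mem_sdiff.1 hmem
          refine hcon ⟨hjR, ?_⟩
          by_contra hge
          exact hjJ (Finset.mem_filter.2 ⟨hjR, not_lt.1 hge⟩)
    have := hmax (r + 1) ⟨_, hP⟩
    omega

end Pool.Agent.H78.NR
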